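import Mathlib
import Pool.Agent.TH494.AntiComm

set_option autoImplicit false

namespace Pool.Agent.Results.MP_d0f9e0_co.AntiunitarySymmetry

/-- `x` is a maximal equiangular tight frame in `ℂ^d`. -/
def IsMaximalETF (d : ℕ) (x : Fin (d ^ 2) → EuclideanSpace ℂ (Fin d)) : Prop :=
  (∀ i, ‖x i‖ = 1) ∧ ∀ i j, i ≠ j → ‖inner ℂ (x i) (x j)‖ = 1 / Real.sqrt ((d : ℝ) + 1)

/-- Permutations of the `d²` lines. -/
abbrev LinePerm (d : ℕ) : Type := Equiv.Perm (Fin (d ^ 2))

/-- Unitary transformations of `ℂ^d`. -/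
abbrev Unitary (d : ℕ) : Type := EuclideanSpace ℂ (Fin d) ≃ₗᵢ[ℂ] EuclideanSpace ℂ (Fin d)

/-- Antiunitary (conjugate-linear, isometric) transformations of `ℂ^d`. -/
abbrev Antiunitary (d : ℕ) : Type :=
  EuclideanSpace ℂ (Fin d) ≃ₛₗᵢ[starRingEnd ℂ] EuclideanSpace ℂ (Fin d)

/-- The trace of a unitary transformation. -/
noncomputable def tr {d : ℕ} (U : Unitary d) : ℂ :=
  LinearMap.trace ℂ (EuclideanSpace ℂ (Fin d)) U.toLinearEquiv.toLinearMap

/-- The unitary transformation `U` maps the line of `x i` to the line of `x (π i)` for all `i`. -/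
def Induces {d : ℕ} (x : Fin (d ^ 2) → EuclideanSpace ℂ (Fin d)) (U : Unitary d)
    (π : LinePerm d) : Prop :=
  ∀ i, ∃ c : ℂ, U (x i) = c • x (π i)

/-- The antiunitary transformation `A` maps the line of `x i` to the line of `x (π i)` for
all `i`. -/
def AntiInduces {d : ℕ} (x : Fin (d ^ 2) → EuclideanSpace ℂ (Fin d)) (A : Antiunitary d)
    (π : LinePerm d) : Prop :=
  ∀ i, ∃ c : ℂ, A (x i) = c • x (π i)

/-- `π` is a unitary symmetry of the set of lines. -/
def UnitarySym {d : ℕ} (x : Fin (d ^ 2) → EuclideanSpace ℂ (Fin d)) (π : LinePerm d) : Prop :=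
  ∃ U, Induces x U π

/-- `π` is an antiunitary symmetry of the set of lines. -/
def AntiunitarySym {d : ℕ} (x : Fin (d ^ 2) → EuclideanSpace ℂ (Fin d)) (π : LinePerm d) :
    Prop := ∃ A, AntiInduces x A π

/-- `π` is an antiunitary symmetry and an involution. -/
def AntiInvolution {d : ℕ} (x : Fin (d ^ 2) → EuclideanSpace ℂ (Fin d)) (π : LinePerm d) :
    Prop := AntiunitarySym x π ∧ π * π = 1

/-- The number of lines fixed by `π`. -/
def fixedLines {d : ℕ} (π : LinePerm d) : ℕ :=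
  (Finset.univ.filter fun i => π i = i).card

/-- The number of lines fixed by both `σ` and `ρ`. -/
def commonFixedLines {d : ℕ} (σ ρ : LinePerm d) : ℕ :=
  (Finset.univ.filter fun i => σ i = i ∧ ρ i = i).card

/-- `A` is the complex conjugation with respect to some orthonormal basis, and the lines fixed by
`π` are exactly the lines spanned by vectors with real coordinates. -/
def RealForm {d : ℕ} (x : Fin (d ^ 2) → EuclideanSpace ℂ (Fin d)) (A : Antiunitary d)
    (π : LinePerm d) : Prop :=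
  ∃ b : OrthonormalBasis (Fin d) ℂ (EuclideanSpace ℂ (Fin d)),
    (∀ v k, b.repr (A v) k = (starRingEnd ℂ) (b.repr v k)) ∧
    ∀ i, π i = i ↔ ∃ c : ℂ, c ≠ 0 ∧ ∀ k, (c * b.repr (x i) k).im = 0

/-- If the antiunitary `A` induces `π`, the number of lines fixed by `π` is the trace of `A²`, and
the number of lines fixed by `π²` is its square; if `π² = 1`, then exactly `d` lines are fixed, and
`A` has the real form above. -/
def FixedLineRule (d : ℕ) (x : Fin (d ^ 2) → EuclideanSpace ℂ (Fin d)) : Prop :=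
  ∀ (A : Antiunitary d) (π : LinePerm d), AntiInduces x A π →
    tr (A.trans A) = (fixedLines π : ℂ) ∧
    fixedLines (π * π) = fixedLines π ^ 2 ∧
    (π * π = 1 → fixedLines π = d ∧ RealForm x A π)

/-- Let `σ` be an involution induced by `A` and `ρ` a unitary symmetry of odd order commuting with
`σ`. Then `ρ` is induced by a unitary `U` of the same order commuting with `A` with
`Tr Uⁿ =` number of lines fixed by `σ` and `ρⁿ`, and the number of lines fixed by `ρⁿ` is the
square of this number. If the order of `ρ` is a prime `p`, the number `f` of lines fixed by `σ`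
and `ρ` satisfies `f ≡ d mod p` and `(p - 1) f² ≤ p f + d`. -/
def CommutingRule (d : ℕ) (x : Fin (d ^ 2) → EuclideanSpace ℂ (Fin d)) : Prop :=
  ∀ (A : Antiunitary d) (σ ρ : LinePerm d), AntiInduces x A σ → σ * σ = 1 → UnitarySym x ρ →
    σ * ρ = ρ * σ → Odd (orderOf ρ) →
    (∃ U : Unitary d, Induces x U ρ ∧ U ^ orderOf ρ = 1 ∧ (∀ v, A (U v) = U (A v)) ∧
      ∀ n : ℕ, tr (U ^ n) = (commonFixedLines σ (ρ ^ n) : ℂ)) ∧
    (∀ n : ℕ, fixedLines (ρ ^ n) = commonFixedLines σ (ρ ^ n) ^ 2) ∧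
    ((orderOf ρ).Prime → commonFixedLines σ ρ ≡ d [MOD orderOf ρ] ∧
      (orderOf ρ - 1) * commonFixedLines σ ρ ^ 2 ≤ orderOf ρ * commonFixedLines σ ρ + d)

/-- `4` divides the order of no line stabiliser of `G`, and the antiunitary involutions in a line
stabiliser are conjugate in it. -/
def StabiliserRule (d : ℕ) (x : Fin (d ^ 2) → EuclideanSpace ℂ (Fin d))
    (G : Subgroup (LinePerm d)) : Prop :=
  (∀ i : Fin (d ^ 2), ¬ 4 ∣ Nat.card (MulAction.stabilizer G i)) ∧
  ∀ i : Fin (d ^ 2), ∀ σ ∈ G, ∀ τ ∈ G, AntiInvolution x σ → AntiInvolution x τ →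
    σ i = i → τ i = i → ∃ g ∈ G, UnitarySym x g ∧ g i = i ∧ g * σ * g⁻¹ = τ

/-- If `2^k` divides `|G|`, it divides `2d²`, and if `2^k` does not divide `d²`, then `G` contains
an antiunitary involution; if `|G|` is a power of two, the number of orbits of lines times `|G|`
is `d² + d t`, where `t` is the number of antiunitary involutions in `G`. -/
def TwoPartRule (d : ℕ) (x : Fin (d ^ 2) → EuclideanSpace ℂ (Fin d))
    (G : Subgroup (LinePerm d)) : Prop :=
  (∀ k : ℕ, 2 ^ k ∣ Nat.card G → 2 ^ k ∣ 2 * d ^ 2 ∧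
    (¬ 2 ^ k ∣ d ^ 2 → ∃ π ∈ G, AntiInvolution x π)) ∧
  ∀ k : ℕ, Nat.card G = 2 ^ k →
    Nat.card (MulAction.orbitRel.Quotient G (Fin (d ^ 2))) * Nat.card G
      = d ^ 2 + d * Nat.card {π : G // AntiInvolution x (π : LinePerm d)}

/-- `4` does not divide `|G|`, every antiunitary symmetry in `G` has an odd power which is an
antiunitary involution, and all antiunitary involutions in `G` are conjugate in `G`. -/
def OddRule (d : ℕ) (x : Fin (d ^ 2) → EuclideanSpace ℂ (Fin d))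
    (G : Subgroup (LinePerm d)) : Prop :=
  ¬ 4 ∣ Nat.card G ∧
  (∀ π ∈ G, AntiunitarySym x π → ∃ m : ℕ, Odd m ∧ AntiInvolution x (π ^ m)) ∧
  (∀ σ ∈ G, ∀ τ ∈ G, AntiInvolution x σ → AntiInvolution x τ →
    ∃ g ∈ G, UnitarySym x g ∧ g * σ * g⁻¹ = τ)

open Pool.Agent.TH494.Anti Pool.Agent.W864.Sym in
/-- Antiunitary symmetries of a maximal ETF in `ℂ^d`, `d ≥ 2` (no covariance is assumed). No
permutation of the lines is both a unitary and an antiunitary symmetry; the rules above on fixed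
lines and on commuting symmetries hold; and if `d + 1` is no perfect square, the rules on
stabilisers, two-parts and (for odd `d`) conjugacy hold for every group `G` of unitary or
antiunitary symmetries. -/
theorem result (d : ℕ) (hd : 2 ≤ d)
    (x : Fin (d ^ 2) → EuclideanSpace ℂ (Fin d)) (hx : IsMaximalETF d x) :
    (∀ π, ¬ (UnitarySym x π ∧ AntiunitarySym x π)) ∧ FixedLineRule d x ∧ CommutingRule d x ∧
    (¬ IsSquare (d + 1) → ∀ G : Subgroup (LinePerm d),
      (∀ π ∈ G, UnitarySym x π ∨ AntiunitarySym x π) →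
      StabiliserRule d x G ∧ TwoPartRule d x G ∧ (Odd d → OddRule d x G)) := by
  have hd1 : 1 ≤ d := by omega
  have hUP : ∀ π, UnitarySym x π ↔ UP x π := by
    intro π
    constructor
    · rintro ⟨U, hU⟩
      obtain ⟨M, hM, hMv⟩ := Pool.Agent.H109R2.SymGroup.unitary_matrix U
      refine ⟨M, hM, fun i => ?_⟩
      obtain ⟨c, hc⟩ := hU i
      exact ⟨c, by rw [hMv, hc]; rfl⟩
    · intro h
      exact up_isSym h
  have hAP : ∀ π, AntiunitarySym x π ↔ AP x π := by
    intro π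
    constructor
    · rintro ⟨A, hA⟩
      obtain ⟨M, hM, hMv⟩ := anti_matrix A
      exact ⟨M, aind_of hA hM hMv⟩
    · rintro ⟨M, hM, hMx⟩
      obtain ⟨U, hU⟩ := exists_U hM
      refine ⟨(conjE d).trans U, fun i => ?_⟩
      obtain ⟨c, hc⟩ := hMx i
      refine ⟨c, ?_⟩
      apply WithLp.ofLp_injective 2
      change (U (WithLp.toLp 2 (star (x i).ofLp))).ofLp = _
      rw [← hU]
      exact hc
  refine ⟨?_, ?_, ?_, ?_⟩
  · rintro π ⟨h1, h2⟩
    exact UP.not_ap hd hx ((hUP π).mp h1) ((hAP π).mp h2)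
  · intro A π hA
    obtain ⟨M, hM, hMv⟩ := anti_matrix A
    have hI := aind_of hA hM hMv
    refine ⟨?_, fix_sq hd1 hx hI, fun h2 => ⟨(invol hd1 hx hI h2).2, ?_⟩⟩
    · rw [tr, trace_sq_map A hMv, trace_eq hd1 hx hI]
      rfl
    · obtain ⟨b, hb⟩ := exists_basis A (sq_eq_self hd1 hx A hA h2)
      exact ⟨b, fun v k => coords A b hb v k, fun i => fixed_iff hd1 hx A hA b hb i⟩
  · intro A σ ρ hA hσ hρ hc hodd
    obtain ⟨M, hM, hMv⟩ := anti_matrix A
    have hI := aind_of hA hM hMv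
    obtain ⟨N₀, hN₀⟩ := (hUP ρ).mp hρ
    have hρm := pow_orderOf_eq_one ρ
    have hsq : ∀ n : ℕ, fixedLines (ρ ^ n) = commonFixedLines σ (ρ ^ n) ^ 2 :=
      fun n => fix_eq_sq hd1 hx hI hσ hN₀ hc hodd hρm n
    refine ⟨?_, hsq, fun hp => ?_⟩
    · obtain ⟨N, hN, hNm, hNc⟩ := real_lift hd1 hx hI hN₀ hc hodd hρm
      obtain ⟨U, hU⟩ := exists_U hN.1
      refine ⟨U, fun i => ?_, ?_, fun v => ?_, fun n => ?_⟩
      · obtain ⟨c, hc⟩ := hN.2 i
        refine ⟨c, ?_⟩
        apply WithLp.ofLp_injective 2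
        rw [← hU]
        exact hc
      · ext1 v
        apply WithLp.ofLp_injective 2
        rw [← U_pow hU, hNm, Matrix.one_mulVec]
        rfl
      · apply WithLp.ofLp_injective 2
        rw [← hMv, ← hU, ← hU, ← hMv, star_mulVec_conj, Matrix.mulVec_mulVec,
          Matrix.mulVec_mulVec, hNc]
      · rw [tr, trace_U (U_pow hU n), real_trace hd1 hx hI hσ hN hc hodd hρm hNm hNc n]
        rfl
    · refine ⟨fix2_mod (invol hd1 hx hI hσ).2 hc hp hρm, ?_⟩
      have hρ1 : ρ ≠ 1 := by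
        rintro rfl
        rw [orderOf_one] at hp
        exact Nat.not_prime_one hp
      have h1 := prime_bound hd1 hx hp hρm hρ1 hN₀
      have h2 := hsq 1
      rw [pow_one] at h2
      change Pool.Agent.W864.Sym.fix ρ = _ at h2
      rw [h2] at h1
      push_cast at h1
      rw [Real.sqrt_sq (by positivity)] at h1
      have h3 : (((orderOf ρ - 1) * commonFixedLines σ ρ ^ 2 : ℕ) : ℝ)
          ≤ ((orderOf ρ * commonFixedLines σ ρ + d : ℕ) : ℝ) := by
        push_cast [Nat.cast_sub hp.one_lt.le]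
        exact h1
      exact_mod_cast h3
  · intro hsq G hG'
    have hG : ∀ π ∈ G, UP x π ∨ AP x π := by
      intro π hπ
      rcases hG' π hπ with h | h
      · exact Or.inl ((hUP π).mp h)
      · exact Or.inr ((hAP π).mp h)
    refine ⟨⟨fun i => stab_four hsq hd hx G hG i, ?_⟩, ⟨?_, ?_⟩, ?_⟩
    · intro i σ hσG τ hτG hσ hτ hσi hτi
      obtain ⟨g, hg, hgU, hgi, h⟩ := conj_common hd hsq hx G hσG hτG ((hAP σ).mp hσ.1)
        ((hAP τ).mp hτ.1) hσ.2 hτ.2 i hσi hτi
      exact ⟨g, hg, (hUP g).mpr hgU, hgi, h⟩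
    · intro k hk
      refine ⟨two_part_full hd hsq hx G hG k hk, fun hkd => ?_⟩
      obtain ⟨π, hπ, hπA, h⟩ := exists_anti_invol hd hsq hx G hG hk hkd
      exact ⟨π, hπ, (hAP π).mpr hπA, h⟩
    · intro k hk
      rw [orbit_formula hd hsq hx G hG hk]
      have : (fun π : G => AP x (π : Equiv.Perm (Fin (d ^ 2))) ∧
          (π : Equiv.Perm (Fin (d ^ 2))) * π = 1)
          = fun π : G => AntiInvolution x (π : Equiv.Perm (Fin (d ^ 2))) := by
        funext π
        rw [AntiInvolution, hAP]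
      rw [this]
    · intro hodd
      obtain ⟨h1, h2, h3⟩ := odd_dim hd hodd hsq hx G hG
      refine ⟨h1, fun π hπ hA => ?_, fun σ hσG τ hτG hσ hτ => ?_⟩
      · obtain ⟨m, hm, hmA, hm2⟩ := h2 π hπ ((hAP π).mp hA)
        exact ⟨m, hm, (hAP _).mpr hmA, hm2⟩
      · obtain ⟨g, hg, hgU, h⟩ := h3 σ hσG τ hτG ((hAP σ).mp hσ.1) ((hAP τ).mp hτ.1) hσ.2 hτ.2
        exact ⟨g, hg, (hUP g).mpr hgU, h⟩

end Pool.Agent.Results.MP_d0f9e0_co.AntiunitarySymmetry
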