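import Mathlib
import Pool.Agent.TH349.SIC.Main

/-!
# Maximal equiangular tight frames whose triple products lie in a fixed number field
-/

set_option autoImplicit false

namespace Pool.Agent.Results.MP_d0f9e0_co.FixedNumberField

open Module

/-- `x` is a maximal equiangular tight frame in `ℂ^d`: `d²` unit vectors whose pairwise inner
products all have modulus `1/√(d+1)`. -/
def IsMaximalETF (d : ℕ) (x : Fin (d ^ 2) → EuclideanSpace ℂ (Fin d)) : Prop :=
  (∀ i, ‖x i‖ = 1) ∧ ∀ i j, i ≠ j → ‖inner ℂ (x i) (x j)‖ = 1 / Real.sqrt ((d : ℝ) + 1)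

/-- the triple product `⟨x_i,x_j⟩⟨x_j,x_k⟩⟨x_k,x_i⟩` -/
noncomputable def tripleProduct {d : ℕ} (x : Fin (d ^ 2) → EuclideanSpace ℂ (Fin d))
    (i j k : Fin (d ^ 2)) : ℂ :=
  inner ℂ (x i) (x j) * inner ℂ (x j) (x k) * inner ℂ (x k) (x i)

/-- the phase of a triple: the triple product divided by its modulus `(d+1)^(-3/2)` -/
noncomputable def phase {d : ℕ} (x : Fin (d ^ 2) → EuclideanSpace ℂ (Fin d))
    (i j k : Fin (d ^ 2)) : ℂ :=
  ((Real.sqrt ((d : ℝ) + 1) : ℝ) : ℂ) ^ 3 * tripleProduct x i j k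

/-- the dimensions `3 ≤ d ≤ X` in which some maximal ETF has all its triple products (of distinct
indices) in `K` -/
def productDims (K : Subfield ℂ) (X : ℕ) : Set ℕ :=
  {d | 3 ≤ d ∧ d ≤ X ∧ ∃ x : Fin (d ^ 2) → EuclideanSpace ℂ (Fin d), IsMaximalETF d x ∧
    ∀ i j k, i ≠ j → j ≠ k → k ≠ i → tripleProduct x i j k ∈ K}

/-- the odd dimensions `3 ≤ d ≤ X` in which some maximal ETF has all its phases (of triples of
distinct indices) in `K` -/
def oddPhaseDims (K : Subfield ℂ) (X : ℕ) : Set ℕ :=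
  {d | 3 ≤ d ∧ d ≤ X ∧ Odd d ∧ ∃ x : Fin (d ^ 2) → EuclideanSpace ℂ (Fin d), IsMaximalETF d x ∧
    ∀ i j k, i ≠ j → j ≠ k → k ≠ i → phase x i j k ∈ K}

/-- Let `K` be a number field in `ℂ`. At most `2 [K : ℚ] √(X+1)` dimensions `3 ≤ d ≤ X` have a
maximal ETF with all triple products in `K`, and at most `[K : ℚ] log₂(2X+1)` odd dimensions
`3 ≤ d ≤ X` have a maximal ETF with all phases in `K`. -/
theorem result (K : Subfield ℂ) [FiniteDimensional ℚ K] (X : ℕ) :
    (productDims K X).ncard ≤ 2 * Nat.sqrt (X + 1) * finrank ℚ K ∧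
    (oddPhaseDims K X).ncard ≤ Nat.log 2 (2 * X + 1) * finrank ℚ K := by
  classical
  have hfin1 : (productDims K X).Finite :=
    (Set.finite_Iic X).subset (fun d hd => hd.2.1)
  have hfin2 : (oddPhaseDims K X).Finite :=
    (Set.finite_Iic X).subset (fun d hd => hd.2.1)
  constructor
  · rw [Set.ncard_eq_toFinset_card _ hfin1]
    apply Pool.Agent.TH349.SIC.count_all K X
    · intro d hd
      rw [Set.Finite.mem_toFinset] at hd
      exact ⟨hd.1, hd.2.1⟩
    · intro d hd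
      rw [Set.Finite.mem_toFinset] at hd
      obtain ⟨h3, -, x, hx, hK⟩ := hd
      exact Pool.Agent.TH349.SIC.disc h3 hx K hK
  · rw [Set.ncard_eq_toFinset_card _ hfin2]
    apply Pool.Agent.TH349.SIC.count_odd K X
    · intro d hd
      rw [Set.Finite.mem_toFinset] at hd
      exact ⟨hd.1, hd.2.1⟩
    · intro d hd
      rw [Set.Finite.mem_toFinset] at hd
      obtain ⟨h3, -, hodd, x, hx, hK⟩ := hd
      have h1 := Pool.Agent.TH349.SIC.triple_of_phase h3 hx K hK
      have h2 := Pool.Agent.TH349.SIC.sqrt_mem h3 hx K hK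
      obtain ⟨r, hrK, hr⟩ := Pool.Agent.TH349.SIC.disc h3 hx K h1
      rw [if_neg (Nat.not_even_iff_odd.mpr hodd)] at hr
      refine ⟨r * ((Real.sqrt ((d : ℝ) + 1) : ℝ) : ℂ), K.mul_mem hrK h2, ?_⟩
      have h4 := Pool.Agent.H109R2.Phases.sq_s (d := d)
      rw [mul_pow, hr, sq ((Real.sqrt ((d : ℝ) + 1) : ℝ) : ℂ), h4]
      push_cast
      ring

end Pool.Agent.Results.MP_d0f9e0_co.FixedNumberField
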