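import Mathlib
import Pool.Agent.H109R2.SICBase
import Pool.Agent.H109R2.Phases
import Pool.Agent.TH560.RU.Cond
import Pool.Agent.TH560.RU.Main
import Pool.Agent.Results.MP_d0f9e0_co.TripleProductField

set_option autoImplicit false

namespace Pool.Agent.Results.MP_d0f9e0_co.RootOfUnityPhases

/-- `x` is a maximal equiangular tight frame in `ℂ^d`: `d²` unit vectors whose pairwise inner
products all have modulus `1/√(d+1)`. -/
def IsMaximalETF (d : ℕ) (x : Fin (d ^ 2) → EuclideanSpace ℂ (Fin d)) : Prop :=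
  (∀ i, ‖x i‖ = 1) ∧ ∀ i j, i ≠ j → ‖inner ℂ (x i) (x j)‖ = 1 / Real.sqrt ((d : ℝ) + 1)

/-- The phase of three lines: the triple product `⟨x_i,x_j⟩⟨x_j,x_k⟩⟨x_k,x_i⟩` multiplied by
`√(d+1)³`, which is a complex number of modulus one when `i, j, k` are distinct. -/
noncomputable def phase {d : ℕ} (x : Fin (d ^ 2) → EuclideanSpace ℂ (Fin d))
    (i j k : Fin (d ^ 2)) : ℂ :=
  ((Real.sqrt ((d : ℝ) + 1) : ℝ) : ℂ) ^ 3 *
    (inner ℂ (x i) (x j) * inner ℂ (x j) (x k) * inner ℂ (x k) (x i))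

open Pool.Agent.H109R2 Pool.Agent.H109R2.Phases Pool.Agent.TH560.RU

/-- all triple products lie in `ℚ(ζ_n)` -/
theorem triple_mem {d : ℕ} (hd : 3 ≤ d) {x : Fin (d ^ 2) → EuclideanSpace ℂ (Fin d)}
    (hx : IsMaximalETF d x) {n : ℕ} (hn : 0 < n) {ζ : ℂ} (hζ : IsPrimitiveRoot ζ n)
    (h : ∀ i j k, i ≠ j → j ≠ k → k ≠ i → phase x i j k ^ n = 1) (i j k : Fin (d ^ 2)) :
    inner ℂ (x i) (x j) * inner ℂ (x j) (x k) * inner ℂ (x k) (x i) ∈
      IntermediateField.adjoin ℚ ({ζ} : Set ℂ) := by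
  have hx' : SIC.IsMaxETF d x := hx
  have hmm : ∀ a b, inner ℂ (x a) (x b) * inner ℂ (x b) (x a) ∈
      IntermediateField.adjoin ℚ ({ζ} : Set ℂ) := by
    intro a b
    rw [SIC.inner_mul_inner hx']
    split_ifs
    · exact one_mem _
    · exact div_mem (one_mem _) (add_mem (natCast_mem _ _) (one_mem _))
  have hself : ∀ a, inner ℂ (x a) (x a) = (1 : ℂ) := self_inner hx'
  by_cases hij : i = j
  · subst hij
    rw [hself, one_mul]
    exact hmm _ _
  by_cases hjk : j = k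
  · subst hjk
    rw [hself, mul_one]
    exact hmm _ _
  by_cases hki : k = i
  · subst hki
    rw [hself, mul_one]
    exact hmm _ _
  have hs := sqrt_mem hd hx' hij hn hζ
    (fun k hk1 hk2 => h i k j (Ne.symm hk1) hk2 (Ne.symm hij))
  have h1 := mem_adjoin_of_pow hn hζ (h i j k hij hjk hki)
  have h0 : ((Real.sqrt ((d : ℝ) + 1) : ℝ) : ℂ) ≠ 0 := by
    have : 0 < Real.sqrt ((d : ℝ) + 1) := Real.sqrt_pos.mpr (by positivity)
    exact_mod_cast this.ne'
  have h2 : inner ℂ (x i) (x j) * inner ℂ (x j) (x k) * inner ℂ (x k) (x i) =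
      phase x i j k / ((Real.sqrt ((d : ℝ) + 1) : ℝ) : ℂ) ^ 3 := by
    unfold phase
    field_simp
  rw [h2]
  exact div_mem h1 (pow_mem hs 3)

/-- the odd dimensions -/
theorem odd_case {d : ℕ} (hodd : Odd d) {n p a : ℕ} (hp : p.Prime) (hp2 : p ≠ 2)
    (hdvd : n ∣ 4 * p ^ a)
    (hD : ∀ D m, Squarefree D → d + 1 = D * m ^ 2 → D ∣ n ∧ (Even D → 8 ∣ n))
    (hE : ∀ E b, Squarefree E → d = E * b ^ 2 → E ∣ n) :
    p % 4 = 3 ∧ IsSquare (d + 1) ∧ ∃ b, d = p * b ^ 2 := by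
  have hprim : ∀ q : ℕ, q.Prime → q ≠ 2 → q ∣ n → q ∣ p := by
    intro q hq hq2 hqn
    rcases (Nat.Prime.dvd_mul hq).1 (hqn.trans hdvd) with h3 | h3
    · have h4 : q ∣ 2 ^ 2 := h3
      exact absurd ((Nat.prime_dvd_prime_iff_eq hq Nat.prime_two).1 (hq.dvd_of_dvd_pow h4)) hq2
    · exact hq.dvd_of_dvd_pow h3
  have h8 : ¬ 8 ∣ n := by
    intro h8
    have h3 : 4 * 2 ∣ 4 * p ^ a := by
      have := h8.trans hdvd
      norm_num
      exact this
    have h4 : 2 ∣ p ^ a := Nat.dvd_of_mul_dvd_mul_left (by norm_num) h3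
    have h5 := Nat.prime_two.dvd_of_dvd_pow h4
    exact hp2 ((Nat.prime_dvd_prime_iff_eq Nat.prime_two hp).1 h5).symm
  obtain ⟨E, b, hEb, hEsq⟩ := Nat.sq_mul_squarefree d
  have hEb' : d = E * b ^ 2 := by rw [← hEb]; ring
  obtain ⟨D, m, hDm, hDsq⟩ := Nat.sq_mul_squarefree (d + 1)
  have hDm' : d + 1 = D * m ^ 2 := by rw [← hDm]; ring
  obtain ⟨hDn, hD8⟩ := hD D m hDsq hDm'
  have hEn := hE E b hEsq hEb'
  have hEp : E ∣ p := by
    refine squarefree_dvd hEsq fun q hq hqE => hprim q hq ?_ (hqE.trans hEn)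
    rintro rfl
    have h3 : 2 ∣ d := by rw [hEb']; exact Dvd.dvd.mul_right hqE _
    rw [Nat.odd_iff] at hodd
    omega
  have hDp : D ∣ p := by
    refine squarefree_dvd hDsq fun q hq hqD => hprim q hq ?_ (hqD.trans hDn)
    rintro rfl
    exact h8 (hD8 (even_iff_two_dvd.2 hqD))
  -- `m` is even
  have hpodd : Odd p := hp.odd_of_ne_two hp2
  have hDodd : Odd D := by
    rcases (Nat.dvd_prime hp).1 hDp with h1 | h1 <;> rw [h1]
    · exact odd_one
    · exact hpodd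
  have hmev : ∃ e, m = 2 * e := by
    rcases Nat.even_or_odd' m with ⟨e, he | he⟩
    · exact ⟨e, he⟩
    · exfalso
      obtain ⟨g, hg⟩ := hDodd
      obtain ⟨f, hf⟩ := hodd
      have h1 : d + 1 = 2 * (g * (2 * e + 1) ^ 2 + 2 * e ^ 2 + 2 * e) + 1 := by
        rw [hDm', he]; rw [hg]; ring
      omega
  obtain ⟨e, he⟩ := hmev
  have hd4 : d + 1 = 4 * (D * e ^ 2) := by rw [hDm', he]; ring
  have hbodd : ∃ f, b = 2 * f + 1 := by
    rcases Nat.even_or_odd' b with ⟨f, hf | hf⟩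
    · exfalso
      have : d = 4 * (E * f ^ 2) := by rw [hEb', hf]; ring
      omega
    · exact ⟨f, hf⟩
  obtain ⟨f, hf⟩ := hbodd
  have hdE : d = 4 * (E * (f ^ 2 + f)) + E := by rw [hEb', hf]; ring
  have hE1 : E = p := by
    rcases (Nat.dvd_prime hp).1 hEp with h1 | h1
    · omega
    · exact h1
  subst hE1
  refine ⟨by omega, ?_, b, hEb'⟩
  rcases (Nat.dvd_prime hp).1 hDp with h1 | h1
  · exact ⟨m, by rw [hDm', h1]; ring⟩
  · exfalso
    have h2 : E ∣ d := by rw [hEb']; exact Dvd.intro _ rfl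
    have h3 : E ∣ d + 1 := by rw [hDm', h1]; exact Dvd.intro _ rfl
    have h4 := (Nat.dvd_add_right h2).1 h3
    exact hp.one_lt.ne' (Nat.dvd_one.1 h4)

/-- **Maximal equiangular tight frames whose phases are roots of unity.**
Let `d ≥ 3`, let `x` be a maximal equiangular tight frame in `ℂ^d` and let `n ≥ 1`.
* Suppose that for one pair `i ≠ j` all phases `phase x i k j`, `k ≠ i, j`, are `n`-th roots of
  unity. Then `n` is even; if `d + 1 = D m²` with `D` squarefree then `D` divides `n`, `8` divides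
  `n` if `D` is even and `4` divides `n` if `D ≡ 3 mod 4`; if `4` does not divide `n` then
  `d ≡ 0` or `3 mod 4`; and if `n` divides `2 p^a` for a prime `p` then `p` divides `d` and `d + 1`
  is a perfect square.
* Suppose that the phases of all triples of distinct lines are `n`-th roots of unity. If `d` is odd
  and `d = E b²` with `E` squarefree then `E` divides `n`. If `d` is odd and `n` divides `4 p^a` for
  a prime `p` then `p ≡ 3 mod 4`, `d` is `p` times a perfect square and `d + 1` is a perfect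
  square. If `n` divides `2 p^a` for a prime `p` then `p` divides `d`, `d + 1` is a perfect square,
  and `8` divides `d` or `p ≡ 3 mod 4` and `d` is `p` times a perfect square. -/
theorem result (d : ℕ) (hd : 3 ≤ d) (x : Fin (d ^ 2) → EuclideanSpace ℂ (Fin d))
    (hx : IsMaximalETF d x) (n : ℕ) (hn : 0 < n) :
    (∀ i j, i ≠ j → (∀ k, k ≠ i → k ≠ j → phase x i k j ^ n = 1) →
      Even n ∧
      (∀ D m, Squarefree D → d + 1 = D * m ^ 2 →
        D ∣ n ∧ (Even D → 8 ∣ n) ∧ (D % 4 = 3 → 4 ∣ n)) ∧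
      (¬ 4 ∣ n → d % 4 = 0 ∨ d % 4 = 3) ∧
      (∀ p a, p.Prime → n ∣ 2 * p ^ a → p ∣ d ∧ IsSquare (d + 1))) ∧
    ((∀ i j k, i ≠ j → j ≠ k → k ≠ i → phase x i j k ^ n = 1) →
      (Odd d → ∀ E b, Squarefree E → d = E * b ^ 2 → E ∣ n) ∧
      (Odd d → ∀ p a, p.Prime → n ∣ 4 * p ^ a →
        p % 4 = 3 ∧ IsSquare (d + 1) ∧ ∃ b, d = p * b ^ 2) ∧
      (∀ p a, p.Prime → n ∣ 2 * p ^ a →
        p ∣ d ∧ IsSquare (d + 1) ∧ (8 ∣ d ∨ (p % 4 = 3 ∧ ∃ b, d = p * b ^ 2)))) := by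
  have hx' : SIC.IsMaxETF d x := hx
  have dvd_pow_one : ∀ {z : ℂ} {N : ℕ}, z ^ n = 1 → n ∣ N → z ^ N = 1 := by
    rintro z N hz ⟨c, rfl⟩
    rw [pow_mul, hz, one_pow]
  have one : ∀ i j, i ≠ j → (∀ k, k ≠ i → k ≠ j → phase x i k j ^ n = 1) →
      Even n ∧
      (∀ D m, Squarefree D → d + 1 = D * m ^ 2 →
        D ∣ n ∧ (Even D → 8 ∣ n) ∧ (D % 4 = 3 → 4 ∣ n)) ∧
      (¬ 4 ∣ n → d % 4 = 0 ∨ d % 4 = 3) ∧
      (∀ p a, p.Prime → n ∣ 2 * p ^ a → p ∣ d ∧ IsSquare (d + 1)) := by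
    intro i j hij h
    have c2 : ∀ D m, Squarefree D → d + 1 = D * m ^ 2 →
        D ∣ n ∧ (Even D → 8 ∣ n) ∧ (D % 4 = 3 → 4 ∣ n) :=
      fun D m hD hDm => one_pair hd hx' hij hn h D m hD hDm
    refine ⟨?_, c2, ?_, ?_⟩
    · by_contra hodd
      rw [Nat.not_even_iff_odd] at hodd
      obtain ⟨-, h1⟩ := odd_phases (by omega) hx' n hodd 1 (Or.inl rfl) i j hij (by
        intro k hk1 hk2
        rw [one_mul]
        exact h k hk1 hk2)
      norm_num at h1
    · intro h4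
      obtain ⟨m, D, hDm, hD⟩ := Nat.sq_mul_squarefree (d + 1)
      have hDm' : d + 1 = m * D ^ 2 := by rw [← hDm]; ring
      obtain ⟨-, h8, h3⟩ := c2 m D hD hDm'
      have hodd : ¬ Even m := fun he => h4 (Dvd.dvd.trans (by norm_num) (h8 he))
      have hm1 : m % 4 = 1 := by
        rw [Nat.even_iff] at hodd
        by_contra hc
        exact h4 (h3 (by omega))
      rcases Nat.even_or_odd' D with ⟨e, rfl | rfl⟩
      · right
        have : d + 1 = 4 * (m * e ^ 2) := by rw [hDm']; ring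
        omega
      · left
        obtain ⟨f, hf⟩ : ∃ f, m = 4 * f + 1 := ⟨m / 4, by omega⟩
        have : d + 1 = 4 * (4 * f * e ^ 2 + 4 * f * e + f + e ^ 2 + e) + 1 := by
          rw [hDm', hf]; ring
        omega
    · intro p a hp hdvd
      exact isSquare_of hd hx' hij (a := a) hp fun k hk1 hk2 => dvd_pow_one (h k hk1 hk2) hdvd
  refine ⟨one, fun h => ?_⟩
  have hζ := Complex.isPrimitiveRoot_exp n hn.ne'
  set ζ := Complex.exp (2 * Real.pi * Complex.I / n) with hζdef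
  have hE : Odd d → ∀ E b, Squarefree E → d = E * b ^ 2 → E ∣ n := by
    intro hodd E b hE hEb
    obtain ⟨⟨r, hr, hr2⟩, -⟩ := TripleProductField.part_one d hd x hx
      (IntermediateField.adjoin ℚ ({ζ} : Set ℂ)).toSubfield
      (fun i j k => triple_mem hd hx hn hζ h i j k)
    have hr' : r ∈ IntermediateField.adjoin ℚ ({ζ} : Set ℂ) := hr
    have hne : ¬ Even d := Nat.not_even_iff_odd.2 hodd
    rw [TripleProductField.oddNeighbour, if_neg hne] at hr2
    have hb : (b : ℂ) ≠ 0 := by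
      intro h0
      have : b = 0 := by exact_mod_cast h0
      rw [this] at hEb
      omega
    have h2 : r / b ∈ IntermediateField.adjoin ℚ ({ζ} : Set ℂ) := div_mem hr' (natCast_mem _ _)
    have h3 : (r / b) ^ 2 = (((-1) ^ (d * (d - 1) / 2) * (E : ℤ) : ℤ) : ℂ) := by
      rw [div_pow, hr2, div_eq_iff (pow_ne_zero 2 hb)]
      have : ((d : ℕ) : ℂ) = ((E * b ^ 2 : ℕ) : ℂ) := by rw [← hEb]
      rw [this]
      push_cast
      ring
    have hsq : Squarefree ((-1) ^ (d * (d - 1) / 2) * (E : ℤ) : ℤ) := by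
      rcases Nat.even_or_odd (d * (d - 1) / 2) with he | ho
      · rw [he.neg_one_pow, one_mul]
        exact squarefree_int hE
      · rw [ho.neg_one_pow, neg_one_mul]
        intro y hy
        exact squarefree_int hE y ((dvd_neg).1 hy)
    obtain ⟨c1, -, -⟩ := conductor hn hζ _ hsq (r / b) h2 h3
    exact squarefree_dvd hE fun q hq hqE => c1 q hq (Dvd.dvd.mul_left (by exact_mod_cast hqE) _)
  have h0 : 1 < d ^ 2 := by nlinarith
  have hij : (⟨0, by omega⟩ : Fin (d ^ 2)) ≠ ⟨1, h0⟩ := by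
    intro h; simpa using congrArg Fin.val h
  have hpair : ∀ k, k ≠ (⟨0, by omega⟩ : Fin (d ^ 2)) → k ≠ ⟨1, h0⟩ →
      phase x ⟨0, by omega⟩ k ⟨1, h0⟩ ^ n = 1 :=
    fun k hk1 hk2 => h _ _ _ (Ne.symm hk1) hk2 hij.symm
  obtain ⟨-, hD, -, h1⟩ := one _ _ hij hpair
  have hO : Odd d → ∀ p a, p.Prime → n ∣ 4 * p ^ a →
      p % 4 = 3 ∧ IsSquare (d + 1) ∧ ∃ b, d = p * b ^ 2 := by
    intro hodd p a hp hdvd
    have hp2 : p ≠ 2 := by
      rintro rfl
      have h2 := isSquare_of hd hx' hij (p := 2) (a := a + 1) hp fun k hk1 hk2 =>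
        dvd_pow_one (hpair k hk1 hk2) (by
          have : 4 * 2 ^ a = 2 * 2 ^ (a + 1) := by ring
          rw [← this]; exact hdvd)
      rw [Nat.odd_iff] at hodd
      omega
    exact odd_case hodd hp hp2 hdvd
      (fun D m hDsq hDm => ⟨(hD D m hDsq hDm).1, (hD D m hDsq hDm).2.1⟩) (hE hodd)
  refine ⟨hE, hO, ?_⟩
  intro p a hp hdvd
  obtain ⟨hpd, m, hm⟩ := h1 p a hp hdvd
  refine ⟨hpd, ⟨m, hm⟩, ?_⟩
  rcases Nat.even_or_odd d with hev | hodd
  · left
    rcases Nat.even_or_odd' m with ⟨e, rfl | rfl⟩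
    · exfalso
      obtain ⟨f, hf⟩ := hev
      have : d + 1 = 2 * (2 * e * e) := by rw [hm]; ring
      omega
    · have h2 : d = 4 * (e * (e + 1)) := by
        have : d + 1 = 4 * (e * (e + 1)) + 1 := by rw [hm]; ring
        omega
      obtain ⟨f, hf⟩ := Nat.even_mul_succ_self e
      exact ⟨f, by omega⟩
  · right
    obtain ⟨h2, -, h3⟩ := hO hodd p a hp (hdvd.trans ⟨2, by ring⟩)
    exact ⟨h2, h3⟩

end Pool.Agent.Results.MP_d0f9e0_co.RootOfUnityPhases
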