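import Mathlib
import Pool.Agent.TH446.SIC.Abel
import Pool.Agent.TH446.SIC.Gen
import Pool.Agent.TH446.SIC.Grp

set_option autoImplicit false

/-!
# Orders of the groups of unitary symmetries of maximal equiangular tight frames
-/

namespace Pool.Agent.Results.MP_d0f9e0_co.SymmetryGroupOrder

/-- `x` is a maximal equiangular tight frame in `ℂ^d`. -/
def IsMaximalETF (d : ℕ) (x : Fin (d ^ 2) → EuclideanSpace ℂ (Fin d)) : Prop :=
  (∀ i, ‖x i‖ = 1) ∧ ∀ i j, i ≠ j → ‖inner ℂ (x i) (x j)‖ = 1 / Real.sqrt ((d : ℝ) + 1)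

/-- The unitary transformation `U` maps the line of `x i` to the line of `x (π i)` for all `i`. -/
def Induces {d : ℕ} (x : Fin (d ^ 2) → EuclideanSpace ℂ (Fin d))
    (U : EuclideanSpace ℂ (Fin d) ≃ₗᵢ[ℂ] EuclideanSpace ℂ (Fin d))
    (π : Equiv.Perm (Fin (d ^ 2))) : Prop :=
  ∀ i, ∃ c : ℂ, U (x i) = c • x (π i)

/-- Let `G` be a group of unitary symmetries of a maximal ETF in `ℂ^d`, regarded as a group of
permutations of the `d²` lines.
* If `G` is commutative and `d ≥ 10` then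
  `|G| ≤ d² (d² - (1 + √(d+1))²) / (d² - 3d - 2d √(d+1))`, which is `(1 + O(1/√d)) d²`; in
  particular `|G| ≤ 2 d²` if `d ≥ 25`.
* If `G` is nilpotent and `d ≥ 25` then `|G| ≤ (2 d²) ^ (2 log₂ d + 2)`.
* If `G` is solvable and `d ≥ 25` then `|G| ≤ (2 d²) ^ ((2 log₂ d + 2)³ + 1)`.
* For arbitrary `G`, if `d ≥ 4` then `|G| ≤ d ^ (2 √(d+1) + 7)`. -/
theorem result (d : ℕ) (x : Fin (d ^ 2) → EuclideanSpace ℂ (Fin d)) (hx : IsMaximalETF d x)
    (G : Subgroup (Equiv.Perm (Fin (d ^ 2)))) (hG : ∀ π ∈ G, ∃ U, Induces x U π) :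
    ((∀ a ∈ G, ∀ b ∈ G, a * b = b * a) →
      (10 ≤ d → (Nat.card G : ℝ) * ((d : ℝ) ^ 2 - 3 * d - 2 * d * Real.sqrt ((d : ℝ) + 1)) ≤
        (d : ℝ) ^ 2 * ((d : ℝ) ^ 2 - (1 + Real.sqrt ((d : ℝ) + 1)) ^ 2)) ∧
      (25 ≤ d → Nat.card G ≤ 2 * d ^ 2)) ∧
    (25 ≤ d → Group.IsNilpotent G →
      (Nat.card G : ℝ) ≤ (2 * (d : ℝ) ^ 2) ^ (2 * Real.logb 2 d + 2)) ∧
    (25 ≤ d → Group.IsSolvable G →
      (Nat.card G : ℝ) ≤ (2 * (d : ℝ) ^ 2) ^ ((2 * Real.logb 2 d + 2) ^ 3 + 1)) ∧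
    (4 ≤ d → (Nat.card G : ℝ) ≤ (d : ℝ) ^ (2 * Real.sqrt ((d : ℝ) + 1) + 7)) := by
  have hGM : ∀ π ∈ G, ∃ M, Pool.Agent.W864.Sym.Ind x M π := by
    intro π hπ
    obtain ⟨U, hU⟩ := hG π hπ
    obtain ⟨M, hM, hMv⟩ := Pool.Agent.H109R2.SymGroup.unitary_matrix U
    refine ⟨M, hM, fun i => ?_⟩
    obtain ⟨c, hc⟩ := hU i
    exact ⟨c, by rw [hMv, hc]; rfl⟩
  -- the condition for the commutative bound
  have hcond : ∀ d' : ℕ, 10 ≤ d' → (d' : ℝ) - 3 ≥ 2 * Real.sqrt ((d' : ℝ) + 1) := by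
    intro d' hd'
    have h1 : (10 : ℝ) ≤ d' := by exact_mod_cast hd'
    have h2 : Real.sqrt ((d' : ℝ) + 1) ≤ ((d' : ℝ) - 3) / 2 := by
      rw [Real.sqrt_le_left (by linarith)]
      nlinarith
    linarith
  have hcom : ∀ H : Subgroup (Equiv.Perm (Fin (d ^ 2))), H ≤ G →
      (∀ a ∈ H, ∀ b ∈ H, a * b = b * a) → 25 ≤ d → Nat.card H ≤ 2 * d ^ 2 := by
    intro H hHG hHc hd
    have h1 := Pool.Agent.TH446.SICG.abel (by omega) hx (hcond d (by omega)) H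
      (fun π hπ => hGM π (hHG hπ)) hHc
    have hdr : (25 : ℝ) ≤ d := by exact_mod_cast hd
    have h0 := hcond d (by omega)
    set s := Real.sqrt ((d : ℝ) + 1) with hs
    have hs2 : s ^ 2 = (d : ℝ) + 1 := Real.sq_sqrt (by linarith)
    have hs5 : (5.0989 : ℝ) ≤ s := by
      rw [hs]
      apply Real.le_sqrt_of_sq_le
      norm_num
      linarith
    have hd' : (d : ℝ) = s ^ 2 - 1 := by linarith
    have h2 : (d : ℝ) ^ 2 - (1 + s) ^ 2 ≤ 2 * ((d : ℝ) ^ 2 - 3 * d - 2 * d * s) := by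
      have h3 : 0 ≤ (s - 1) * (s ^ 2 - 4 * s - 6) + 2 := by
        obtain ⟨u, hu⟩ : ∃ u, u = s - 5.0989 := ⟨_, rfl⟩
        have hu0 : 0 ≤ u := by linarith
        have hsu : s = u + 5.0989 := by linarith
        rw [hsu]
        have e : (u + 5.0989 - 1) * ((u + 5.0989) ^ 2 - 4 * (u + 5.0989) - 6) + 2 =
          u ^ 3 + (u ^ 2) * (5.0989 * 3 - 5) + u * (3 * 5.0989 ^ 2 - 10 * 5.0989 - 2) +
            ((5.0989 - 1) * (5.0989 ^ 2 - 4 * 5.0989 - 6) + 2) := by ring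
        rw [e]
        have e1 : (0 : ℝ) ≤ 5.0989 * 3 - 5 := by norm_num
        have e2 : (0 : ℝ) ≤ 3 * 5.0989 ^ 2 - 10 * 5.0989 - 2 := by norm_num
        have e3 : (0 : ℝ) ≤ (5.0989 - 1) * (5.0989 ^ 2 - 4 * 5.0989 - 6) + 2 := by norm_num
        positivity
      have h4 : 0 ≤ (s + 1) * ((s - 1) * (s ^ 2 - 4 * s - 6) + 2) :=
        mul_nonneg (by linarith) h3
      have h5 : 2 * ((d : ℝ) ^ 2 - 3 * d - 2 * d * s) - ((d : ℝ) ^ 2 - (1 + s) ^ 2)
          = (s + 1) * ((s - 1) * (s ^ 2 - 4 * s - 6) + 2) := by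
        rw [hd']; ring
      linarith
    have h3 : 0 < (d : ℝ) ^ 2 - 3 * d - 2 * d * s := by
      have h4 : 0 < (d : ℝ) * (d - 3 - 2 * s) := by
        apply mul_pos (by linarith)
        nlinarith
      nlinarith
    have h4 : (Nat.card H : ℝ) * ((d : ℝ) ^ 2 - 3 * d - 2 * d * s) ≤
        (2 * (d : ℝ) ^ 2) * ((d : ℝ) ^ 2 - 3 * d - 2 * d * s) := by
      refine h1.trans ?_
      have h5 := mul_le_mul_of_nonneg_left h2 (by positivity : (0 : ℝ) ≤ (d : ℝ) ^ 2)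
      linarith
    have h5 := le_of_mul_le_mul_right h4 h3
    exact_mod_cast h5
  have hcomG : 25 ≤ d → ∀ A : Subgroup G, Pool.Agent.TH446.SICG.Com A →
      Nat.card A ≤ 2 * d ^ 2 := by
    intro hd A hA
    have h1 := hcom (A.map G.subtype) (Subgroup.map_subtype_le A) (by
      rintro _ ⟨a, ha, rfl⟩ _ ⟨b, hb, rfl⟩
      rw [← map_mul, hA a ha b hb, map_mul]) hd
    rwa [Subgroup.card_map_of_injective G.subtype_injective] at h1
  have hlog : 25 ≤ d → ((Nat.log 2 (2 * d ^ 2) : ℕ) : ℝ) + 1 ≤ 2 * Real.logb 2 d + 2 := by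
    intro hd
    have hd0 : (0 : ℝ) < d := by
      have : (25 : ℝ) ≤ d := by exact_mod_cast hd
      linarith
    have h1 : ((Nat.log 2 (2 * d ^ 2) : ℕ) : ℝ) ≤ Real.logb 2 ((2 * d ^ 2 : ℕ) : ℝ) := by
      rw [Real.le_logb_iff_rpow_le (by norm_num) (by positivity), Real.rpow_natCast]
      have h2 : 2 ^ Nat.log 2 (2 * d ^ 2) ≤ 2 * d ^ 2 :=
        Nat.pow_log_le_self 2 (by positivity)
      exact_mod_cast h2
    have h2 : Real.logb 2 ((2 * d ^ 2 : ℕ) : ℝ) = 1 + 2 * Real.logb 2 d := by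
      push_cast
      rw [Real.logb_mul (by norm_num) (by positivity), Real.logb_pow,
        Real.logb_self_eq_one (by norm_num)]
      push_cast
      ring
    linarith
  refine ⟨fun hc => ⟨fun hd => ?_, fun hd => hcom G le_rfl hc hd⟩, fun hd hn => ?_,
    fun hd hs => ?_, fun hd => ?_⟩
  · exact Pool.Agent.TH446.SICG.abel (by omega) hx (hcond d hd) G hGM hc
  · have h1 := Pool.Agent.TH446.SICG.nil_bound (G := G) (2 * d ^ 2) (hcomG hd)
    have h2 : (Nat.card G : ℝ) ≤ (2 * (d : ℝ) ^ 2) ^ (Nat.log 2 (2 * d ^ 2) + 1) := by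
      exact_mod_cast h1
    refine h2.trans ?_
    rw [← Real.rpow_natCast]
    have hdr : (25 : ℝ) ≤ d := by exact_mod_cast hd
    refine Real.rpow_le_rpow_of_exponent_le (by nlinarith) ?_
    push_cast
    exact hlog hd
  · have h1 := Pool.Agent.TH446.SICG.solv_bound (G := G) hs (2 * d ^ 2) (hcomG hd)
    have h2 : (Nat.card G : ℝ) ≤
        (2 * (d : ℝ) ^ 2) ^ ((Nat.log 2 (2 * d ^ 2) + 1) ^ 3 + 1) := by
      exact_mod_cast h1
    refine h2.trans ?_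
    rw [← Real.rpow_natCast]
    have hdr : (25 : ℝ) ≤ d := by exact_mod_cast hd
    refine Real.rpow_le_rpow_of_exponent_le (by nlinarith) ?_
    push_cast
    have h3 := pow_le_pow_left₀ (by positivity) (hlog hd) 3
    linarith
  · have hs0 := Real.sqrt_nonneg ((d : ℝ) + 1)
    set k := ⌈2 + Real.sqrt ((d : ℝ) + 1)⌉₊ with hk
    have h1 := Pool.Agent.TH446.SICG.general hd hx G hGM k (Nat.le_ceil _)
    have h2 : (k : ℝ) < 2 + Real.sqrt ((d : ℝ) + 1) + 1 := Nat.ceil_lt_add_one (by linarith)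
    have h3 : (Nat.card G : ℝ) ≤ (d : ℝ) ^ (2 * k + 1) := by exact_mod_cast h1
    refine h3.trans ?_
    rw [← Real.rpow_natCast]
    have hdr : (4 : ℝ) ≤ d := by exact_mod_cast hd
    refine Real.rpow_le_rpow_of_exponent_le (by linarith) ?_
    push_cast
    linarith

end Pool.Agent.Results.MP_d0f9e0_co.SymmetryGroupOrder
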